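import Pool.Agent.Q16.Irr.Defs
import Pool.Agent.Q16.Irr.Main

/-!
# A faithful irreducible coset space with infinitely many minimal closed normal subgroups
-/

open Q16.IrrDefs

namespace Pool.Agent.Results.MP_e825aa_al.InfinitelyMany

/-- There are a Hausdorff topological group `G` and a subgroup `H` such that `G ⧸ H` is a faithful
irreducible coset space and `G` has infinitely many minimal nontrivial closed normal subgroups. -/
theorem result :
    ∃ (G : Type) (_ : Group G) (_ : TopologicalSpace G) (_ : IsTopologicalGroup G) (_ : T2Space G)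
      (H : Subgroup G),
      IsIrreducibleCosetSpace G H ∧ IsFaithfulCosetSpace G H ∧ (minimalClosedNormal G).Infinite := by
  refine ⟨Q16.Irr.G, inferInstance, inferInstance, inferInstance, inferInstance, Q16.Irr.H1,
    ⟨Q16.Irr.isClosed_H1, Q16.Irr.H1_ne_top, Q16.Irr.maximal⟩, Q16.Irr.core, ?_⟩
  apply Q16.Irr.infinite_L.mono
  rintro _ ⟨a, ha, rfl⟩
  exact ⟨Q16.Irr.normal_L a, Q16.Irr.isClosed_L a, Q16.Irr.L_ne_bot ha,
    fun N hN _ hNL => Q16.Irr.L_minimal N hN hNL⟩

end Pool.Agent.Results.MP_e825aa_al.InfinitelyMany
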